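import Pool.Agent.K9h45.GA.Idx3
import Pool.Agent.TH803.UC.Sets

/-!
# Gaps of normal size in almost all windows of consecutive ordinates

Unconditionally, for `0 < η < 1` and `ε > 0` there are `a, K, δ > 0` such that for all `n ≤ N` but
`N ^ (1 - δ)` of them, and SIMULTANEOUSLY for all `R` with `n ^ η ≤ R ≤ n / 100`, at least
`(2 - c((1 + η) / 2) - ε) R` of the `R` gaps `γ_{m+1} - γ_m`, `n < m ≤ n + R`, lie between
`a / log m` and `K / log m`.  The proportion is positive as soon as `η ≥ 1 / 9`.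

Proof: in almost all windows `(t, t + H]`, for all `H ≥ T ^ η₁` simultaneously, isolated simple zeros on
the critical line have the proportion `2 - c((1 + η₁) / 2) - ε` (`Pool.Agent.K9h45.GA.all_iso`), hence so
have the normal gaps (lemmas of the starting file `OrdinateGaps`).  If `n` is exceptional then all `t`
in `[γ_n - T ^ η₁, γ_n)` are exceptional, and these intervals have bounded overlap.
-/

set_option autoImplicit false

namespace Pool.Agent.Results.MP_af3d17_nt.GapsInIndexWindows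

/-- the number of nontrivial zeros with ordinate in `(0, t]`, counted with multiplicity -/
noncomputable def N (t : ℝ) : ℕ :=
  ∑ᶠ s ∈ {s : ℂ | riemannZeta s = 0 ∧ 0 < s.re ∧ s.re < 1 ∧ 0 < s.im ∧ s.im ≤ t},
    analyticOrderNatAt riemannZeta s

/-- the `n`-th positive ordinate `γ_n` (`n ≥ 1`), in nondecreasing order and repeated according to
multiplicity: the least `t` with at least `n` zeros in `(0, t]` -/
noncomputable def γ (n : ℕ) : ℝ := sInf {t : ℝ | n ≤ N t}

/-- the function of Montgomery and Taylor; `c 1 = c_MT⁻¹` -/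
noncomputable def c (h : ℝ) : ℝ := h / 2 + Real.cot (h / Real.sqrt 2) / Real.sqrt 2

/-- the `m ∈ (n, n + R]` with `a / log m ≤ γ_{m+1} - γ_m ≤ K / log m` -/
def normal (n R : ℕ) (a K : ℝ) : Set ℕ :=
  {m : ℕ | n < m ∧ m ≤ n + R ∧ a / Real.log m ≤ γ (m + 1) - γ m ∧
    γ (m + 1) - γ m ≤ K / Real.log m}

/-- the positive `n ≤ M` such that for some `R` with `n ^ η ≤ R ≤ n / 100` less than `P R` of the
`m ∈ (n, n + R]` are normal -/
def exceptional (M : ℕ) (η P a K : ℝ) : Set ℕ :=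
  {n : ℕ | 1 ≤ n ∧ n ≤ M ∧ ∃ R : ℕ, (n : ℝ) ^ η ≤ R ∧ 100 * R ≤ n ∧
    ((normal n R a K).ncard : ℝ) < P * R}

/-- **gaps of normal size in almost all windows of indices, of all lengths `≥ n ^ η`** -/
theorem result :
    (∀ η ε : ℝ, 0 < η → η < 1 → 0 < ε → ∃ a K δ : ℝ, 0 < a ∧ 0 < K ∧ 0 < δ ∧
      ∃ M₀ : ℕ, ∀ M : ℕ, M₀ ≤ M →
        ((exceptional M η (2 - c ((1 + η) / 2) - ε) a K).ncard : ℝ) ≤ (M : ℝ) ^ (1 - δ)) ∧
    -- the constants
    (∀ h : ℝ, 0 < h → h ≤ 1 → c h ≤ 1 / h + h / 3) ∧ c (5 / 9) ≤ 268 / 135 ∧ c (3 / 4) ≤ 19 / 12 ∧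
      c 1 ≤ 1.3275 := by
  classical
  refine ⟨fun η ε h0 h1 hε => ?_, H295SI.cc_le, ?_, ?_, TH803UC.cc_lt⟩
  · obtain ⟨a, K, δ, ha, hK, hδ, M₀, h⟩ := Pool.Agent.K9h45.GA.up_to h0 h1 hε
    refine ⟨a, K, δ, ha, hK, hδ, M₀, fun M hM => ?_⟩
    have hfin : (exceptional M η (2 - c ((1 + η) / 2) - ε) a K).Finite :=
      (Set.finite_Iic M).subset fun n hn => hn.2.1
    rw [Set.ncard_eq_toFinset_card _ hfin]
    refine h M hM _ fun n hn => ?_
    rw [Set.Finite.mem_toFinset] at hn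
    obtain ⟨h2, h3, R, h4, h5, h6⟩ := hn
    exact ⟨⟨h2, R, h4, h5, h6⟩, h3⟩
  · refine (H295SI.cc_le (5 / 9) (by norm_num) (by norm_num)).trans ?_
    norm_num
  · refine (H295SI.cc_le (3 / 4) (by norm_num) (by norm_num)).trans ?_
    norm_num

end Pool.Agent.Results.MP_af3d17_nt.GapsInIndexWindows
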